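import Mathlib

namespace Pool.Agent.Work.MP_394e0d_co.H

open Function

variable {F : Type} [Field F]

/-- The local problem on one line of directions. -/
def Loc (c : F) : Prop :=
  ∃ U : F → F → F → Option F, (∀ θ t, Injective (U θ t)) ∧ (∀ θ t ρ, U θ t ρ ≠ some θ) ∧
    (∀ θ t ρ, U θ t ρ ≠ some ρ) ∧ (∀ θ t t' ρ, U θ t ρ = none → U θ t' ρ = none → t = t') ∧
    ∀ θ t θ' t' ρ r, U θ t ρ = some r → U θ' t' ρ = some r →
      t + c * r * θ = t' + c * r * θ' → θ = θ'

theorem swap [Finite F] (c : F) (L Y : F → F → F) (hL0 : ∀ θ, L θ θ = θ)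
    (hL1 : ∀ θ m m', L θ m = L θ m' → m = m') (hL2 : ∀ m θ θ', L θ m = L θ' m → θ = θ')
    (hY : ∀ θ m m', Y θ m = Y θ m' → m = m')
    (hk : ∀ θ m, θ ≠ m → Y (L θ m) m + c * m * L θ m = Y θ m + c * m * θ) : Loc c := by
  classical
  choose Li hLi using fun θ => Finite.surjective_of_injective (f := L θ) (hL1 θ)
  choose Yi hYi using fun θ => Finite.surjective_of_injective (f := Y θ) (hY θ)
  let U : F → F → F → Option F := fun θ t ρ =>
    if ρ = L θ (Yi θ t) then none else if ρ = θ then some (Yi θ t) else some (Li θ ρ)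
  have hn : ∀ θ t ρ, U θ t ρ = none → ρ = L θ (Yi θ t) := by
    intro θ t ρ h
    by_contra h1
    simp only [U, if_neg h1] at h
    split_ifs at h
  have hs : ∀ θ t ρ r, U θ t ρ = some r →
      (ρ = θ ∧ Y θ r = t ∧ r ≠ θ) ∨ (ρ ≠ θ ∧ L θ r = ρ ∧ Y θ r ≠ t) := by
    intro θ t ρ r h
    simp only [U] at h
    split_ifs at h with h1 h2
    · obtain rfl := Option.some.inj h
      refine Or.inl ⟨h2, hYi _ _, fun e => h1 ?_⟩
      rw [e, hL0, h2]
    · obtain rfl := Option.some.inj h
      refine Or.inr ⟨h2, hLi _ _, fun e => h1 ?_⟩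
      rw [← hY θ _ _ (e.trans (hYi θ t).symm), hLi]
  refine ⟨U, ?_, ?_, ?_, ?_, ?_⟩
  · intro θ t ρ ρ' h
    rcases e : U θ t ρ with _ | r
    · rw [hn _ _ _ e, hn _ _ _ (h.symm.trans e)]
    · rcases hs _ _ _ _ e with ⟨a, b, -⟩ | ⟨-, a, b⟩ <;>
        rcases hs _ _ _ _ (h.symm.trans e) with ⟨a', b', -⟩ | ⟨-, a', b'⟩
      · rw [a, a']
      · exact (b' b).elim
      · exact (b b').elim
      · rw [← a, a']
  · intro θ t ρ h
    rcases hs _ _ _ _ h with ⟨-, -, a⟩ | ⟨a, b, -⟩
    · exact a rfl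
    · exact a (by rw [← b, hL0])
  · intro θ t ρ h
    rcases hs _ _ _ _ h with ⟨a, -, b⟩ | ⟨a, b, -⟩
    · exact b a
    · exact a (hL2 ρ _ _ ((hL0 ρ).trans b.symm))
  · intro θ t t' ρ h h'
    rw [← hYi θ t, hL1 θ _ _ ((hn _ _ _ h).symm.trans (hn _ _ _ h')), hYi]
  · intro θ t θ' t' ρ r h h' e
    have key : ∀ θ t θ' t', t + c * r * θ = t' + c * r * θ' → ρ = θ → Y θ r = t → ρ ≠ θ' →
        L θ' r = ρ → Y θ' r = t' := by
      intro θ t θ' t' e a b a' b'
      have h1 : θ' ≠ r := fun k => a' (by rw [← b', k, hL0])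
      have h2 := hk θ' r h1
      rw [b', a, b] at h2
      linear_combination e - h2
    rcases hs _ _ _ _ h with ⟨a, b, -⟩ | ⟨a, b, k⟩ <;>
      rcases hs _ _ _ _ h' with ⟨a', b', -⟩ | ⟨a', b', k'⟩
    · rw [← a, a']
    · exact (k' (key _ _ _ _ e a b a' b')).elim
    · exact (k (key _ _ _ _ e.symm a' b' a b)).elim
    · exact hL2 r _ _ (b.trans b'.symm)

theorem loc_odd [Finite F] (h2 : (2 : F) ≠ 0) (c : F) : Loc c := by
  refine swap c (fun θ m => 2 * m - θ) (fun θ m => m - c / 2 * θ ^ 2) (fun θ => by ring)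
    (fun θ m m' h => mul_left_cancel₀ h2 (by linear_combination h))
    (fun m θ θ' h => by linear_combination -h) (fun θ m m' h => by linear_combination h)
    fun θ m _ => ?_
  field_simp
  ring

theorem loc_zero [Finite F] (a : F) (h0 : a ≠ 0) (h1 : a ≠ 1) : Loc (0 : F) :=
  swap 0 (fun θ m => a * m + (1 - a) * θ) (fun _ m => m) (fun θ => by ring)
    (fun θ m m' h => mul_left_cancel₀ h0 (by linear_combination h))
    (fun m θ θ' h => mul_left_cancel₀ (sub_ne_zero.2 h1.symm) (by linear_combination h))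
    (fun _ _ _ h => h) fun θ m _ => by ring

theorem loc_scale (h : Loc (1 : F)) {c : F} (hc : c ≠ 0) : Loc c := by
  obtain ⟨U, h1, h2, h3, h4, h5⟩ := h
  refine ⟨fun θ t => U θ (t / c), fun _ _ => h1 _ _, fun _ _ => h2 _ _, fun _ _ => h3 _ _,
    fun θ t t' ρ a b => ?_, fun θ t θ' t' ρ r a b e => h5 _ _ _ _ _ _ a b ?_⟩
  · exact (div_left_inj' hc).1 (h4 _ _ _ _ a b)
  · field_simp
    linear_combination e

open Classical in
/-- The idempotent Latin square in characteristic two. -/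
noncomputable def evL (a b θ m : F) : F :=
  if m = θ then θ else if m = 0 then b * θ else if θ = 0 then a * m
    else if θ = (a + 1) * m then 0 else θ + m

open Classical in
/-- The swap heights in characteristic two. -/
noncomputable def evY (a θ m : F) : F :=
  if m = θ then θ ^ 2 else if m = 0 then 0 else if θ = 0 then (1 + a + a ^ 2) * m ^ 2
    else θ ^ 2 + m ^ 2

theorem loc_even [Finite F] [CharP F 2] (a b : F) (h0 : a ≠ 0) (h1 : a + 1 ≠ 0)
    (h2 : 1 + a + a ^ 2 ≠ 0) (hb : b * (a + 1) = a) : Loc (1 : F) := by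
  have sq : ∀ s t : F, s ^ 2 = t ^ 2 → s = t := by
    intro s t h
    have : (s - t) ^ 2 = 0 := by grind
    exact sub_eq_zero.mp (pow_eq_zero_iff (by norm_num) |>.mp this)
  refine swap 1 (evL a b) (evY a) (fun θ => by simp [evL]) ?_ ?_ ?_ ?_
  · intro θ m m' h
    simp only [evL] at h
    split_ifs at h <;> grind
  · intro m θ θ' h
    simp only [evL] at h
    split_ifs at h <;> grind
  · intro θ m m' h
    apply sq
    simp only [evY] at h
    split_ifs at h <;> grind
  · intro θ m h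
    have e : ∀ x, evL a b θ m = x → (m = 0 ∧ x = b * θ) ∨ (m ≠ 0 ∧ θ = 0 ∧ x = a * m) ∨
        (m ≠ 0 ∧ θ = (a + 1) * m ∧ x = 0) ∨ (m ≠ 0 ∧ θ ≠ 0 ∧ x = θ + m) := by
      intro x hx
      simp only [evL] at hx
      split_ifs at hx <;> grind
    have two : (2 : F) = 0 := CharTwo.two_eq_zero
    have hm : ¬m = θ := fun k => h k.symm
    rcases e _ rfl with ⟨k1, k2⟩ | ⟨k1, k2, k3⟩ | ⟨k1, k2, k3⟩ | ⟨k1, k2, k3⟩
    · have k4 : ¬m = b * θ := by grind
      rw [k2]
      simp only [evY, if_neg k4, if_neg hm, if_pos k1]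
      rw [k1]
      ring
    · have k4 : ¬m = a * m := by grind
      have k5 : ¬a * m = 0 := mul_ne_zero h0 k1
      rw [k3]
      simp only [evY, if_neg k4, if_neg k5, if_neg k1, if_neg hm, if_pos k2]
      rw [k2]
      ring
    · have k5 : ¬θ = 0 := by grind
      rw [k3]
      simp only [evY, if_neg k1, if_neg hm, if_neg k5, if_true]
      rw [k2]
      linear_combination (-(a + 1) * m ^ 2) * two
    · have k4 : ¬m = θ + m := by grind
      have k5 : ¬θ + m = 0 := by grind
      rw [k3]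
      simp only [evY, if_neg k1, if_neg hm, if_neg k2, if_neg k4, if_neg k5]
      linear_combination (θ * m + m ^ 2) * two

/-- The table for the field of four elements; the value `4` stands for `none`. -/
def tab : Fin 4 → Fin 4 → Fin 4 → Option (Fin 4) :=
  ![![![some 1, some 2, some 3, none], ![some 1, some 3, none, some 2],
      ![some 1, none, some 3, some 2], ![none, some 2, some 3, some 1]],
    ![![some 2, some 3, some 0, none], ![none, some 3, some 0, some 2],
      ![some 3, none, some 0, some 2], ![some 2, some 3, none, some 0]],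
    ![![none, some 0, some 3, some 1], ![some 3, some 0, some 1, none],
      ![some 3, none, some 1, some 0], ![some 3, some 0, none, some 1]],
    ![![some 1, some 2, none, some 0], ![some 2, none, some 1, some 0],
      ![some 2, some 0, some 1, none], ![none, some 2, some 0, some 1]]]

/-- Addition table of the field of four elements. -/
def ad4 : Fin 4 → Fin 4 → Fin 4 := ![![0, 1, 2, 3], ![1, 0, 3, 2], ![2, 3, 0, 1], ![3, 2, 1, 0]]

/-- Multiplication table of the field of four elements. -/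
def mu4 : Fin 4 → Fin 4 → Fin 4 := ![![0, 0, 0, 0], ![0, 1, 2, 3], ![0, 2, 3, 1], ![0, 3, 1, 2]]

theorem tab1 : ∀ θ t ρ ρ', tab θ t ρ = tab θ t ρ' → ρ = ρ' := by decide
theorem tab2 : ∀ θ t ρ, tab θ t ρ ≠ some θ ∧ tab θ t ρ ≠ some ρ := by decide
theorem tab3 : ∀ θ t t' ρ, tab θ t ρ = none → tab θ t' ρ = none → t = t' := by decide
theorem tab4 : ∀ θ t θ' t' ρ r, tab θ t ρ = some r → tab θ' t' ρ = some r →
    ad4 t (mu4 r θ) = ad4 t' (mu4 r θ') → θ = θ' := by decide +kernel

theorem loc_four [CharP F 2] (a : F) (h0 : a ≠ 0) (h1 : a ≠ 1) (h4 : ∀ x : F, x ^ 4 = x) :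
    Loc (1 : F) := by
  have ha : a ^ 2 + a + 1 = 0 := by
    have := h4 a
    grind
  let φ : Fin 4 → F := ![0, 1, a, a + 1]
  have hinj : Injective φ := by
    intro i j h
    fin_cases i <;> fin_cases j <;> simp [φ] at h ⊢ <;> grind
  have hsur : Surjective φ := by
    intro x
    have h := h4 x
    have : x = 0 ∨ x = 1 ∨ x = a ∨ x = a + 1 := by grind
    rcases this with rfl | rfl | rfl | rfl
    exacts [⟨0, rfl⟩, ⟨1, rfl⟩, ⟨2, rfl⟩, ⟨3, rfl⟩]
  have hadd : ∀ i j, φ (ad4 i j) = φ i + φ j := by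
    intro i j
    fin_cases i <;> fin_cases j <;> simp [φ, ad4] <;> grind
  have hmul : ∀ i j, φ (mu4 i j) = φ i * φ j := by
    intro i j
    fin_cases i <;> fin_cases j <;> simp [φ, mu4] <;> grind
  let e : Fin 4 ≃ F := Equiv.ofBijective φ ⟨hinj, hsur⟩
  have he : ∀ x, φ (e.symm x) = x := e.apply_symm_apply
  have hs : ∀ (o : Option (Fin 4)) (r : F), o.map φ = some r → o = some (e.symm r) := by
    rintro (_ | i) r h
    · simp at h
    · obtain rfl : φ i = r := Option.some.inj h
      exact congrArg some (e.symm_apply_apply i).symm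
  refine ⟨fun θ t ρ => (tab (e.symm θ) (e.symm t) (e.symm ρ)).map φ, fun θ t ρ ρ' h => ?_,
    fun θ t ρ h => (tab2 _ _ _).1 (hs _ _ h), fun θ t ρ h => (tab2 _ _ _).2 (hs _ _ h),
    fun θ t t' ρ h h' => ?_, fun θ t θ' t' ρ r h h' k => ?_⟩
  · exact e.symm.injective (tab1 _ _ _ _ (Option.map_injective hinj h))
  · exact e.symm.injective (tab3 _ _ _ _ (Option.map_eq_none_iff.1 h) (Option.map_eq_none_iff.1 h'))
  · refine e.symm.injective (tab4 _ _ _ _ _ _ (hs _ _ h) (hs _ _ h') (hinj ?_))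
    rw [hadd, hadd, hmul, hmul, he, he, he, he, he]
    linear_combination k

theorem loc [Finite F] (h : 2 < Nat.card F) (c : F) : Loc c := by
  by_cases h2 : (2 : F) = 0
  · have : CharP F 2 := CharTwo.of_one_ne_zero_of_two_eq_zero one_ne_zero h2
    obtain ⟨a, ha0, ha1⟩ : ∃ a : F, a ≠ 0 ∧ a ≠ 1 := by
      by_contra hcon
      push Not at hcon
      have hsub : (Set.univ : Set F) ⊆ {0, 1} := by
        intro a _
        by_cases h0 : a = 0
        · exact Or.inl h0
        · exact Or.inr (hcon a h0)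
      have h3 := Set.ncard_le_ncard hsub
      rw [Set.ncard_univ, Set.ncard_pair zero_ne_one] at h3
      omega
    by_cases hc : c = 0
    · rw [hc]
      exact loc_zero a ha0 ha1
    refine loc_scale ?_ hc
    by_cases h4 : ∀ x : F, x ^ 4 = x
    · exact loc_four a ha0 ha1 h4
    · push Not at h4
      obtain ⟨x, hx⟩ := h4
      have k1 : x + 1 ≠ 0 := by grind
      exact loc_even x (x / (x + 1)) (by grind) k1 (by grind) (div_mul_cancel₀ _ k1)
  · exact loc_odd h2 c

end Pool.Agent.Work.MP_394e0d_co.H
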