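import Mathlib
import Pool.Agent.Work.MP_394e0d_co.H.Loc

namespace Pool.Agent.Work.MP_394e0d_co.H

open Function

variable {F : Type} [Field F]

/-- `v` lists exactly one nonzero vector of each one-dimensional subspace. -/
structure Reps {n : ℕ} {I : Type} (v : I → Fin n → F) : Prop where
  ne : ∀ i, v i ≠ 0
  inj : ∀ i j (c : F), v i = c • v j → i = j
  surj : ∀ w, w ≠ 0 → ∃ i, ∃ c : F, w = c • v i

/-- A system of matchings of rows to parallel classes, one for each affine point. -/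
def Good {n : ℕ} {R X : Type} (vr : R → Fin n → F) (vx : X → Fin n → F)
    (π : (Fin n → F) → R → X) : Prop :=
  (∀ P, Injective (π P)) ∧ (∀ P d, vx (π P d) ⬝ᵥ vr d ≠ 0) ∧
    ∀ d P Q, π P d = π Q d → vx (π P d) ⬝ᵥ P = vx (π P d) ⬝ᵥ Q → P = Q

theorem reps_proj (n : ℕ) :
    Reps (fun x : Projectivization F (Fin n → F) => x.rep) := by
  refine ⟨fun x => x.rep_nonzero, fun x y c h => ?_, fun w hw => ?_⟩
  · rw [← x.mk_rep, ← y.mk_rep, Projectivization.mk_eq_mk_iff']
    exact ⟨c, h.symm⟩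
  · obtain ⟨c, hc⟩ := (Projectivization.mk_eq_mk_iff' F w (Projectivization.mk F w hw).rep hw
      (Projectivization.rep_nonzero _)).1 (Projectivization.mk_rep _).symm
    exact ⟨_, c, hc.symm⟩

theorem Good.transfer {n : ℕ} {R X I : Type} {vr : R → Fin n → F} {vx : X → Fin n → F}
    {π : (Fin n → F) → R → X} (h : Good vr vx π) {v : I → Fin n → F} (hv : Reps v)
    (hr : ∀ w, w ≠ 0 → ∃ i, ∃ c : F, w = c • vr i) (hx : ∀ i, vx i ≠ 0)
    (hx' : ∀ i j (c : F), vx i = c • vx j → i = j) : ∃ π', Good v v π' := by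
  obtain ⟨h1, h2, h3⟩ := h
  choose eR cR hR using fun i => hr (v i) (hv.ne i)
  choose eX cX hX using fun x => hv.surj (vx x) (hx x)
  have cR0 : ∀ i, cR i ≠ 0 := fun i h => hv.ne i (by rw [hR i, h, zero_smul])
  have cX0 : ∀ i, cX i ≠ 0 := fun i h => hx i (by rw [hX i, h, zero_smul])
  have iR : Injective eR := fun i j h => hv.inj i j (cR i / cR j) (by
    rw [hR i, hR j, h, smul_smul, div_mul_cancel₀ _ (cR0 j)])
  have iX : Injective eX := fun i j h => hx' i j (cX i / cX j) (by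
    rw [hX i, hX j, h, smul_smul, div_mul_cancel₀ _ (cX0 j)])
  refine ⟨fun P d => eX (π P (eR d)), fun P => iX.comp ((h1 P).comp iR), fun P d h => ?_,
    fun d P Q a b => h3 (eR d) P Q (iX a) ?_⟩
  · refine h2 P (eR d) ?_
    rw [hR d, dotProduct_smul, smul_eq_mul, mul_eq_zero, or_iff_right (cR0 d)] at h
    rw [hX, smul_dotProduct, h, smul_zero]
  · rw [hX, smul_dotProduct, smul_dotProduct]
    exact congrArg _ b

theorem dot_succ {n : ℕ} (s : F) (w : Fin n → F) (P : Fin (n + 1) → F) :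
    Matrix.vecCons s w ⬝ᵥ P = s * P 0 + w ⬝ᵥ Fin.tail P := by
  simp [dotProduct, Fin.sum_univ_succ, Fin.tail]

theorem ext_succ {α : Type} {n : ℕ} {P Q : Fin (n + 1) → α} (h0 : P 0 = Q 0) (h : Fin.tail P = Fin.tail Q) :
    P = Q := by
  rw [← Fin.cons_self_tail P, ← Fin.cons_self_tail Q, h0, h]

theorem step {n : ℕ} {I J : Type} (hloc : ∀ c : F, Loc c) {v : I → Fin n → F} (hv : Reps v)
    {π : (Fin n → F) → I → I} (hπ : Good v v π) {u : J → Fin (n + 1) → F} (hu : Reps u) :
    ∃ π', Good u u π' := by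
  obtain ⟨p1, p2, p3⟩ := hπ
  choose U u1 u2 u3 u4 u5 using hloc
  let g : I → Fin n → F := fun d => (v (π 0 d) ⬝ᵥ v d)⁻¹ • v (π 0 d)
  have hg : ∀ d, g d ⬝ᵥ v d = 1 := fun d => by
    simp only [g, smul_dotProduct, smul_eq_mul]
    exact inv_mul_cancel₀ (p2 0 d)
  have hg' : ∀ d d' (a a' : F), a ≠ 0 → a • g d = a' • g d' → d = d' := by
    intro d d' a a' ha h
    refine p1 0 (hv.inj _ _ ((v (π 0 d) ⬝ᵥ v d) * a⁻¹ * a' * (v (π 0 d') ⬝ᵥ v d')⁻¹) ?_)
    have : v (π 0 d) = ((v (π 0 d) ⬝ᵥ v d) * a⁻¹) • a • g d := by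
      simp only [g, smul_smul]
      rw [show v (π 0 d) ⬝ᵥ v d * a⁻¹ * (a * (v (π 0 d) ⬝ᵥ v d)⁻¹) = 1 by
        have := p2 0 d
        field_simp, one_smul]
    refine this.trans ?_
    rw [h]
    simp only [g, smul_smul, mul_assoc]
  let vr : Option (I × F) → Fin (n + 1) → F := fun d =>
    d.elim (Matrix.vecCons 1 0) fun p => Matrix.vecCons (-p.2) (v p.1)
  let vx : I ⊕ (Fin n → F) → Fin (n + 1) → F :=
    Sum.elim (fun x => Matrix.vecCons 0 (v x)) fun z => Matrix.vecCons 1 z
  let W : (Fin n → F) → F → I → F → Option F := fun y t d ρ =>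
    U (g d ⬝ᵥ g d) (y ⬝ᵥ v d) (t + y ⬝ᵥ v d * (y ⬝ᵥ g d - g d ⬝ᵥ g d * y ⬝ᵥ v d)) ρ
  let pt : (Fin n → F) → I → F → Fin n → F := fun y d r => y + (r - y ⬝ᵥ v d) • g d
  have hpt : ∀ y d r, pt y d r ⬝ᵥ v d = r := fun y d r => by
    simp only [pt, add_dotProduct, smul_dotProduct, hg, smul_eq_mul]
    ring
  let π' : (Fin (n + 1) → F) → Option (I × F) → I ⊕ (Fin n → F) := fun P d =>
    d.elim (Sum.inr (Fin.tail P)) fun p => (W (Fin.tail P) (P 0) p.1 p.2).elim
      (Sum.inl (π (Fin.tail P) p.1)) fun r => Sum.inr (pt (Fin.tail P) p.1 r)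
  have hcase : ∀ P d ρ, (W (Fin.tail P) (P 0) d ρ = none ∧
      π' P (some (d, ρ)) = Sum.inl (π (Fin.tail P) d)) ∨
      ∃ r, W (Fin.tail P) (P 0) d ρ = some r ∧
        π' P (some (d, ρ)) = Sum.inr (pt (Fin.tail P) d r) := by
    intro P d ρ
    rcases e : W (Fin.tail P) (P 0) d ρ with _ | r
    · exact Or.inl ⟨rfl, by simp only [π', Option.elim_some, e, Option.elim_none]⟩
    · exact Or.inr ⟨r, rfl, by simp only [π', Option.elim_some, e]⟩
  have hne : ∀ y t d ρ r, W y t d ρ = some r → r - y ⬝ᵥ v d ≠ 0 := by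
    intro y t d ρ r h k
    exact u2 _ _ _ _ (h.trans (congrArg some (sub_eq_zero.1 k)))
  have hne' : ∀ y t d ρ r, W y t d ρ = some r → pt y d r ≠ y := by
    intro y t d ρ r h k
    have := hpt y d r
    rw [k] at this
    exact hne _ _ _ _ _ h (sub_eq_zero.2 this.symm)
  have good : Good vr vx π' := by
    refine ⟨?_, ?_, ?_⟩
    · rintro P (_ | ⟨d, ρ⟩) (_ | ⟨d', ρ'⟩) h
      · rfl
      · rcases hcase P d' ρ' with ⟨-, b⟩ | ⟨r, a, b⟩ <;> rw [b] at h
        · exact absurd h Sum.inr_ne_inl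
        · exact absurd (Sum.inr.inj h).symm (hne' _ _ _ _ _ a)
      · rcases hcase P d ρ with ⟨-, b⟩ | ⟨r, a, b⟩ <;> rw [b] at h
        · exact absurd h Sum.inl_ne_inr
        · exact absurd (Sum.inr.inj h) (hne' _ _ _ _ _ a)
      · rcases hcase P d ρ with ⟨a, b⟩ | ⟨r, a, b⟩ <;>
          rcases hcase P d' ρ' with ⟨a', b'⟩ | ⟨r', a', b'⟩ <;> rw [b, b'] at h
        · obtain rfl := p1 _ (Sum.inl.inj h)
          rw [u1 _ _ _ (a.trans a'.symm)]
        · exact absurd h Sum.inl_ne_inr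
        · exact absurd h Sum.inr_ne_inl
        · have h' := Sum.inr.inj h
          obtain rfl := hg' _ _ _ _ (hne _ _ _ _ _ a) (add_left_cancel h')
          obtain rfl : r = r' := by rw [← hpt (Fin.tail P) d r, h', hpt]
          rw [u1 _ _ _ (a.trans a'.symm)]
    · rintro P (_ | ⟨d, ρ⟩)
      · simp [π', vx, vr]
      · rcases hcase P d ρ with ⟨a, b⟩ | ⟨r, a, b⟩ <;> rw [b]
        · simpa [vx, vr] using p2 _ d
        · have : ρ ≠ r := fun k => u3 _ _ _ _ (a.trans (congrArg some k.symm))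
          simp only [vx, vr, Sum.elim_inr, Option.elim_some, Matrix.cons_dotProduct_cons, hpt]
          intro k
          exact this (by linear_combination -k)
    · rintro (_ | ⟨d, ρ⟩) P Q h k
      · have h' : Fin.tail P = Fin.tail Q := Sum.inr.inj h
        simp only [π', vx, Option.elim_none, Sum.elim_inr, dot_succ, h'] at k
        exact ext_succ (by linear_combination k) h'
      · rcases hcase P d ρ with ⟨a, b⟩ | ⟨r, a, b⟩ <;>
          rcases hcase Q d ρ with ⟨a', b'⟩ | ⟨r', a', b'⟩ <;> rw [b] at k <;> rw [b, b'] at h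
        · simp only [vx, Sum.elim_inl, dot_succ, zero_mul, zero_add] at k
          have h' := p3 d _ _ (Sum.inl.inj h) k
          rw [← h'] at a'
          exact ext_succ (add_right_cancel (u4 _ _ _ _ _ a a')) h'
        · exact absurd h Sum.inl_ne_inr
        · exact absurd h Sum.inr_ne_inl
        · have h' := Sum.inr.inj h
          obtain rfl : r = r' := by rw [← hpt (Fin.tail P) d r, h', hpt]
          simp only [vx, Sum.elim_inr, dot_succ, one_mul] at k
          have e : ∀ y z, pt y d r = z → y = z - (r - y ⬝ᵥ v d) • g d ∧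
              y ⬝ᵥ g d = z ⬝ᵥ g d - (r - y ⬝ᵥ v d) * (g d ⬝ᵥ g d) ∧
              z ⬝ᵥ y = z ⬝ᵥ z - (r - y ⬝ᵥ v d) * (z ⬝ᵥ g d) := by
            intro y z hz
            have h1 : y = z - (r - y ⬝ᵥ v d) • g d := eq_sub_of_add_eq hz
            generalize r - y ⬝ᵥ v d = s at h1
            refine ⟨h1, ?_, ?_⟩
            · rw [h1, sub_dotProduct, smul_dotProduct, smul_eq_mul]
            · rw [h1, dotProduct_sub, dotProduct_smul, smul_eq_mul]
          obtain ⟨e0, e1, e2⟩ := e _ _ (rfl : pt (Fin.tail P) d r = _)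
          obtain ⟨e0', e1', e2'⟩ := e _ _ h'.symm
          have hθ := u5 _ _ _ _ _ _ _ a a' (by
            linear_combination k + Fin.tail P ⬝ᵥ v d * e1 - Fin.tail Q ⬝ᵥ v d * e1' - e2 + e2')
          have hy : Fin.tail P = Fin.tail Q := by
            rw [← hθ] at e0'
            exact e0.trans e0'.symm
          rw [← hy] at k
          exact ext_succ (add_right_cancel k) hy
  refine good.transfer hu (fun w hw => ?_) ?_ ?_
  · by_cases h : Fin.tail w = 0
    · refine ⟨none, w 0, ext_succ (by simp [vr]) ?_⟩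
      rw [h]
      funext i
      simp [vr, Fin.tail]
    · obtain ⟨i, c, hc⟩ := hv.surj _ h
      have c0 : c ≠ 0 := fun k => h (by rw [hc, k, zero_smul])
      refine ⟨some (i, -(w 0 / c)), c, ext_succ ?_ ?_⟩
      · simp [vr]
        field_simp
      · rw [hc]
        funext j
        simp [vr, Fin.tail]
  · rintro (x | z) h
    · refine hv.ne x (funext fun j => ?_)
      simpa [vx] using congrFun h j.succ
    · simpa [vx] using congrFun h 0
  · rintro (x | z) (x' | z') c h
    · refine congrArg _ (hv.inj x x' c (funext fun j => ?_))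
      simpa [vx] using congrFun h j.succ
    · have h0 : c = 0 := by simpa [vx, eq_comm] using congrFun h 0
      refine (hv.ne x (funext fun j => ?_)).elim
      simpa [vx, h0] using congrFun h j.succ
    · simpa [vx] using congrFun h 0
    · have h0 : c = 1 := by simpa [vx, eq_comm] using congrFun h 0
      refine congrArg _ (funext fun j => ?_)
      simpa [vx, h0] using congrFun h j.succ

theorem exists_good (hloc : ∀ c : F, Loc c) (n : ℕ) :
    ∀ {I : Type} {v : I → Fin n → F}, Reps v → ∃ π, Good v v π := by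
  induction n with
  | zero =>
    intro I v hv
    have h : ∀ i : I, False := fun i => hv.ne i (Subsingleton.elim _ _)
    exact ⟨fun _ d => d, fun _ => injective_id, fun _ d => (h d).elim, fun d => (h d).elim⟩
  | succ n ih =>
    intro J u hu
    obtain ⟨π, hπ⟩ := ih (reps_proj n)
    exact step hloc (reps_proj n) hπ hu

end Pool.Agent.Work.MP_394e0d_co.H
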