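import Mathlib
import Pool.Agent.Work.MP_394e0d_co.Defs
import Pool.Agent.Work.MP_394e0d_co.H.Step

namespace Pool.Agent.Work.MP_394e0d_co.H

open Function

variable {F : Type} [Field F]

theorem fib {G H : Type} [AddCommGroup G] [AddCommGroup H] [Finite G] [Finite H] (f : G →+ H)
    (hf : Surjective f) (k : H) : {x | f x = k}.ncard = Nat.card G / Nat.card H := by
  obtain ⟨x₀, rfl⟩ := hf k
  have h1 : {x | f x = f x₀} = (fun y => y + x₀) '' (f.ker : Set G) := by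
    ext x
    simp only [Set.mem_ofPred_eq, Set.mem_image, SetLike.mem_coe, AddMonoidHom.mem_ker]
    constructor
    · intro h
      exact ⟨x - x₀, by rw [map_sub, h, sub_self], sub_add_cancel _ _⟩
    · rintro ⟨y, hy, rfl⟩
      rw [map_add, hy, zero_add]
  have h2 := f.ker.card_mul_index
  rw [AddSubgroup.index_ker, AddMonoidHom.range_eq_top.2 hf, AddSubgroup.card_top] at h2
  rw [h1, Set.ncard_image_of_injective _ (add_left_injective x₀), ← h2,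
    Nat.mul_div_cancel _ Nat.card_pos]
  rfl

theorem fib1 [Finite F] {n : ℕ} {w : Fin n → F} (hw : w ≠ 0) (k : F) :
    {P | P ⬝ᵥ w = k}.ncard = Nat.card (Fin n → F) / Nat.card F := by
  refine fib (AddMonoidHom.mk' (fun P => P ⬝ᵥ w) fun a b => add_dotProduct a b w) (fun s => ?_) k
  obtain ⟨i, hi⟩ := Function.ne_iff.1 hw
  have hi' : w i ≠ 0 := hi
  refine ⟨Pi.single i (s / w i), ?_⟩
  simp [div_mul_cancel₀ _ hi']

theorem fib2 [Finite F] {n : ℕ} {w w' : Fin n → F} (hw : w ≠ 0) (h : ∀ c : F, w' ≠ c • w) :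
    {P | P ⬝ᵥ w = 1 ∧ P ⬝ᵥ w' = 0}.ncard = Nat.card (Fin n → F) / Nat.card (F × F) := by
  have := fib (AddMonoidHom.mk' (fun P : Fin n → F => (P ⬝ᵥ w, P ⬝ᵥ w')) fun a b => by
    simp only [add_dotProduct, Prod.mk_add_mk]) (fun s => ?_) (1, 0)
  · simpa using this
  obtain ⟨i, hi⟩ := Function.ne_iff.1 hw
  have hi' : w i ≠ 0 := hi
  obtain ⟨j, hj⟩ := Function.ne_iff.1 (h (w' i / w i))
  have hD : w i * w' j - w j * w' i ≠ 0 := by
    intro k
    apply hj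
    simp only [Pi.smul_apply, smul_eq_mul]
    field_simp
    linear_combination k
  refine ⟨Pi.single i ((s.1 * w' j - s.2 * w j) / (w i * w' j - w j * w' i)) +
    Pi.single j ((s.2 * w i - s.1 * w' i) / (w i * w' j - w j * w' i)), Prod.ext ?_ ?_⟩ <;>
  · simp only [AddMonoidHom.mk'_apply, add_dotProduct, single_dotProduct]
    rw [div_mul_eq_mul_div, div_mul_eq_mul_div, ← add_div, div_eq_iff hD]
    ring

theorem reps_count {n : ℕ} {I : Type} {v : I → Fin n → F} (hv : Reps v) (w : Fin n → F)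
    (p : (Fin n → F) → Prop) (hp : ∀ (c : F) u, c ≠ 0 → p u → p (c • u)) :
    {x | v x ⬝ᵥ w ≠ 0 ∧ p (v x)}.ncard = {u | u ⬝ᵥ w = 1 ∧ p u}.ncard := by
  refine Set.ncard_congr (fun x _ => (v x ⬝ᵥ w)⁻¹ • v x) ?_ ?_ ?_
  · rintro x ⟨h1, h2⟩
    exact ⟨by rw [smul_dotProduct, smul_eq_mul, inv_mul_cancel₀ h1], hp _ _ (inv_ne_zero h1) h2⟩
  · rintro x y ⟨h1, -⟩ - h
    refine hv.inj x y (v x ⬝ᵥ w * (v y ⬝ᵥ w)⁻¹) ?_
    rw [mul_smul, ← h, smul_smul, mul_inv_cancel₀ h1, one_smul]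
  · rintro u ⟨h1, h2⟩
    obtain ⟨i, c, rfl⟩ := hv.surj u (by
      rintro rfl
      simp at h1)
    rw [smul_dotProduct, smul_eq_mul] at h1
    have hc : c ≠ 0 := left_ne_zero_of_mul_eq_one h1
    refine ⟨i, ⟨right_ne_zero_of_mul_eq_one h1, ?_⟩, ?_⟩
    · have := hp c⁻¹ _ (inv_ne_zero hc) h2
      rwa [smul_smul, inv_mul_cancel₀ hc, one_smul] at this
    · rw [eq_inv_of_mul_eq_one_left h1]

theorem assemble [Finite F] {n : ℕ} {I : Type} [Finite I] {v : I → Fin n → F} (hv : Reps v)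
    {π : (Fin n → F) → I → I} (hπ : Good v v π) :
    ∃ A : I → (Fin n → F) → I × F, IsTripleArray A ∧
      (∀ d, Set.range (fun P => A d P) = {s | v s.1 ⬝ᵥ v d ≠ 0}) ∧
      ∀ P, Set.range (fun d => A d P) = {s | v s.1 ⬝ᵥ P = s.2} := by
  obtain ⟨h1, h2, h3⟩ := hπ
  let A : I → (Fin n → F) → I × F := fun d P => (π P d, v (π P d) ⬝ᵥ P)
  have hsur : ∀ P, Surjective (π P) := fun P => Finite.surjective_of_injective (h1 P)
  have hrow : ∀ d, Injective fun P => A d P := by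
    intro d P Q h
    have e1 : π P d = π Q d := congrArg Prod.fst h
    have e2 : v (π P d) ⬝ᵥ P = v (π Q d) ⬝ᵥ Q := congrArg Prod.snd h
    exact h3 d P Q e1 (by rw [e2, e1])
  have hcol : ∀ P, Set.range (fun d => A d P) = {s | v s.1 ⬝ᵥ P = s.2} := by
    intro P
    ext ⟨x, k⟩
    simp only [Set.mem_range, Set.mem_ofPred_eq, A, Prod.mk.injEq]
    constructor
    · rintro ⟨d, rfl, rfl⟩
      rfl
    · rintro rfl
      obtain ⟨d, rfl⟩ := hsur P x
      exact ⟨d, rfl, rfl⟩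
  have hN : ∀ w : Fin n → F, w ≠ 0 →
      {x | v x ⬝ᵥ w ≠ 0}.ncard = Nat.card (Fin n → F) / Nat.card F := by
    intro w hw
    have := reps_count hv w (fun _ => True) fun _ _ _ _ => trivial
    simp only [and_true] at this
    rw [this, fib1 hw]
  have hrowset : ∀ d, Set.range (fun P => A d P) = {x | v x ⬝ᵥ v d ≠ 0} ×ˢ Set.univ := by
    intro d
    apply Set.eq_of_subset_of_ncard_le
    · rintro _ ⟨P, rfl⟩
      exact ⟨h2 P d, trivial⟩
    · rw [Set.ncard_prod, hN _ (hv.ne d), Set.ncard_univ, Set.ncard_range_of_injective (hrow d)]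
      exact Nat.div_mul_le_self _ _
    · exact Set.toFinite _
  refine ⟨A, ⟨hrow, fun P d d' h => h1 P (congrArg Prod.fst h),
    ⟨Nat.card (Fin n → F) / Nat.card F, ?_⟩, ⟨Nat.card (Fin n → F) / Nat.card F, ?_⟩,
    ⟨(Nat.card (Fin n → F) / Nat.card F - Nat.card (Fin n → F) / Nat.card (F × F)) * Nat.card F,
      ?_⟩, ⟨Nat.card I - Nat.card (Fin n → F) / Nat.card F, ?_⟩⟩, fun d => ?_, hcol⟩
  · rintro ⟨x, k⟩
    rw [← fib1 (hv.ne x) k]
    refine Set.ncard_congr (fun p _ => p.2) ?_ ?_ ?_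
    · rintro ⟨d, P⟩ h
      obtain ⟨rfl, rfl⟩ := Prod.mk.inj h
      exact dotProduct_comm _ _
    · rintro ⟨d, P⟩ ⟨d', P'⟩ h h' (rfl : P = P')
      exact Prod.ext (h1 P ((Prod.mk.inj h).1.trans (Prod.mk.inj h').1.symm)) rfl
    · intro P h
      obtain ⟨d, rfl⟩ := hsur P x
      exact ⟨(d, P), Prod.ext rfl ((dotProduct_comm _ _).trans h), rfl⟩
  · intro d P
    rw [hrowset, hcol, ← hN _ (hv.ne d)]
    refine Set.ncard_congr (fun s _ => s.1) (fun s h => h.1.1) ?_ ?_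
    · rintro ⟨x, k⟩ ⟨x', k'⟩ h h' (rfl : x = x')
      exact Prod.ext rfl (h.2.symm.trans h'.2)
    · intro x h
      exact ⟨(x, v x ⬝ᵥ P), ⟨⟨h, trivial⟩, rfl⟩, rfl⟩
  · intro d d' hd
    rw [hrowset, hrowset, Set.prod_inter_prod, Set.inter_self, Set.ncard_prod, Set.ncard_univ]
    congr 1
    have e1 := reps_count hv (v d) (fun u => u ⬝ᵥ v d' ≠ 0) fun c u hc hu => by
      rw [smul_dotProduct, smul_eq_mul]
      exact mul_ne_zero hc hu
    have e2 := Set.ncard_inter_add_ncard_sdiff_eq_ncard {u | u ⬝ᵥ v d = 1} {u | u ⬝ᵥ v d' = 0}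
    have e3 := fib2 (hv.ne d) fun c h => hd (hv.inj _ _ c h).symm
    rw [fib1 (hv.ne d)] at e2
    change {u | u ⬝ᵥ v d = 1 ∧ u ⬝ᵥ v d' = 0}.ncard +
      {u | u ⬝ᵥ v d = 1 ∧ u ⬝ᵥ v d' ≠ 0}.ncard = _ at e2
    change {x | v x ⬝ᵥ v d ≠ 0 ∧ v x ⬝ᵥ v d' ≠ 0}.ncard = _
    omega
  · intro P Q hPQ
    rw [hcol, hcol, ← hN _ (sub_ne_zero.2 hPQ)]
    have e1 := Set.ncard_add_ncard_compl {x | v x ⬝ᵥ (P - Q) ≠ 0}
    have e2 : ({s : I × F | v s.1 ⬝ᵥ P = s.2} ∩ {s | v s.1 ⬝ᵥ Q = s.2}).ncard =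
        ({x | v x ⬝ᵥ (P - Q) ≠ 0}ᶜ).ncard := by
      refine Set.ncard_congr (fun s _ => s.1) (fun s h k => k ?_) ?_ ?_
      · rw [dotProduct_sub, h.1, h.2, sub_self]
      · rintro ⟨x, k⟩ ⟨x', k'⟩ h h' (rfl : x = x')
        exact Prod.ext rfl (h.1.symm.trans h'.1)
      · intro x h
        have h' : v x ⬝ᵥ (P - Q) = 0 := not_not.1 h
        rw [dotProduct_sub, sub_eq_zero] at h'
        exact ⟨(x, v x ⬝ᵥ P), ⟨rfl, h'.symm⟩, rfl⟩
    omega
  · rw [hrowset]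
    ext s
    simp

theorem main [Finite F] (hq : 2 < Nat.card F) (n : ℕ) :
    ∃ A : Projectivization F (Fin n → F) → (Fin n → F) → Projectivization F (Fin n → F) × F,
      IsTripleArray A ∧ (∀ d, Set.range (fun P => A d P) = {s | s.1.rep ⬝ᵥ d.rep ≠ 0}) ∧
      ∀ P, Set.range (fun d => A d P) = {s | s.1.rep ⬝ᵥ P = s.2} := by
  obtain ⟨π, hπ⟩ := exists_good (loc hq) n (reps_proj n)
  exact assemble (reps_proj n) hπ

end Pool.Agent.Work.MP_394e0d_co.H
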