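import Mathlib
import Pool.Agent.Work.MP_394e0d_co.H.Main

namespace Pool.Agent.Work.MP_394e0d_co.H

open Function

/-- The matching system for a pairing `b` with two values; rows and classes are nonzero vectors. -/
def G2 {V A : Type} [Zero V] [Zero A] (b : V → V → A) : Prop :=
  ∃ π : V → V → V, (∀ P d d', d ≠ 0 → d' ≠ 0 → π P d = π P d' → d = d') ∧
    (∀ P d, d ≠ 0 → b (π P d) d ≠ 0) ∧
    ∀ d P Q, d ≠ 0 → π P d = π Q d → b (π P d) P = b (π P d) Q → P = Q

theorem G2.transport {V V' A A' : Type} [Zero V] [Zero V'] [Zero A] [Zero A'] {b : V → V → A}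
    {b' : V' → V' → A'} (h : G2 b) (S : V → V') (T : V' → V) (e : A → A') (hS : Injective S)
    (hT : Injective T) (hT0 : T 0 = 0) (he : Injective e) (he0 : e 0 = 0)
    (hb : ∀ x y, b' (S x) y = e (b x (T y))) : G2 b' := by
  obtain ⟨π, h1, h2, h3⟩ := h
  have hT' : ∀ d, d ≠ 0 → T d ≠ 0 := fun d hd k => hd (hT (k.trans hT0.symm))
  refine ⟨fun P d => S (π (T P) (T d)), fun P d d' hd hd' k => ?_, fun P d hd k => ?_,
    fun d P Q hd k k' => ?_⟩
  · exact hT (h1 _ _ _ (hT' d hd) (hT' d' hd') (hS k))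
  · rw [hb] at k
    exact h2 _ _ (hT' d hd) (he (k.trans he0.symm))
  · rw [hb, hb] at k'
    exact hT (h3 _ _ _ (hT' d hd) (hS k) (he k'))

theorem coord {V : Type} [AddCommGroup V] [Module (ZMod 2) V] {n : ℕ}
    (e : Module.Basis (Fin n) (ZMod 2) V) (b : V → V → ZMod 2)
    (hb : ∀ x, IsLinearMap (ZMod 2) (b x)) (hn : ∀ x x', (∀ y, b x y = b x' y) → x = x') :
    G2 b ↔ G2 fun x y : Fin n → ZMod 2 => x ⬝ᵥ y := by
  let S : V → Fin n → ZMod 2 := fun x i => b x (e i)
  have key : ∀ x y, S x ⬝ᵥ y = b x (e.equivFun.symm y) := by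
    intro x y
    have := map_sum ((hb x).mk' _) (fun i => y i • e i) Finset.univ
    simp only [IsLinearMap.mk'_apply] at this
    rw [Module.Basis.equivFun_symm_apply, this]
    refine Finset.sum_congr rfl fun i _ => ?_
    rw [(hb x).map_smul, smul_eq_mul, mul_comm]
  have hS : Injective S := fun x x' h => hn x x' fun y => by
    rw [← e.equivFun.symm_apply_apply y, ← key, ← key, h]
  have hS' : Surjective S :=
    (Finite.surjective_of_injective (hS.comp e.equivFun.symm.injective)).of_comp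
  constructor
  · intro h
    exact h.transport S e.equivFun.symm id hS e.equivFun.symm.injective (map_zero _)
      injective_id rfl key
  · intro h
    refine h.transport (surjInv hS') e.equivFun id (injective_surjInv hS') e.equivFun.injective
      (map_zero _) injective_id rfl fun x y => ?_
    rw [← e.equivFun.symm_apply_apply y, ← key, surjInv_eq hS', e.equivFun.symm_apply_apply]
    rfl

theorem g2_odd {K : Type} [Field K] [CharP K 2] (l : K →+ ZMod 2) (h1 : l 1 = 1)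
    (h2 : ∀ x, l (x * x) = l x) : G2 fun x y : K => l (x * y) := by
  classical
  have z2 : ∀ a : ZMod 2, a + a = 0 := by decide
  let x : K → K := fun u => if l u = 0 then u + 1 else u
  have hx : ∀ u, (l u = 0 ∧ x u = u + 1) ∨ (l u ≠ 0 ∧ x u = u) := by
    intro u
    by_cases h : l u = 0
    · exact Or.inl ⟨h, if_pos h⟩
    · exact Or.inr ⟨h, if_neg h⟩
  have hx1 : ∀ u, l (x u) ≠ 0 := by
    intro u
    rcases hx u with ⟨a, b⟩ | ⟨a, b⟩ <;> rw [b]
    · rw [map_add, a, h1]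
      decide
    · exact a
  have hw : ∀ u u', x u * u = x u' * u' → u = u' := by
    intro u u' h
    have m : ∀ u u' : K, l u' ≠ 0 → (u + 1) * u ≠ u' * u' := by
      intro u u' a k
      have := congrArg l k
      rw [add_mul, one_mul, map_add, h2, h2, z2] at this
      exact a this.symm
    rcases hx u with ⟨a, b⟩ | ⟨a, b⟩ <;> rcases hx u' with ⟨a', b'⟩ | ⟨a', b'⟩ <;> rw [b, b'] at h
    · have : u = u' ∨ u = u' + 1 := by grind
      rcases this with k | k
      · exact k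
      · rw [k, map_add, a', h1] at a
        exact absurd a (by decide)
    · exact (m _ _ a' h).elim
    · exact (m _ _ a h.symm).elim
    · have : (u - u') ^ 2 = 0 := by grind
      exact sub_eq_zero.mp (pow_eq_zero_iff (by norm_num) |>.mp this)
  refine ⟨fun P d => x (P / d) / d, fun P d d' hd hd' k => ?_, fun P d hd => ?_,
    fun d P Q hd k k' => ?_⟩
  · have e : P / d = P / d' := hw _ _ (by
      have k' : x (P / d) / d = x (P / d') / d' := k
      rw [← mul_div_assoc, ← mul_div_assoc, mul_div_right_comm, mul_div_right_comm _ P d', k'])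
    have k0 : x (P / d) ≠ 0 := fun k => hx1 _ (by rw [k, map_zero])
    have k' : x (P / d) / d = x (P / d') / d' := k
    rw [← e, div_eq_mul_inv (x (P / d)), div_eq_mul_inv (x (P / d))] at k'
    exact inv_injective (mul_left_cancel₀ k0 k')
  · simp only [div_mul_cancel₀ _ hd]
    exact hx1 _
  · have k1 : x (P / d) = x (Q / d) := (div_left_inj' hd).1 k
    have k2 : l (x (P / d) * (P / d)) = l (x (P / d) * (Q / d)) := by
      simpa only [div_mul_eq_mul_div, mul_div_assoc] using k'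
    refine (div_left_inj' hd).1 ?_
    generalize P / d = u at k1 k2
    generalize Q / d = u' at k1 k2
    by_contra hne
    have k3 : u' = u + 1 := by
      rcases hx u with ⟨-, b⟩ | ⟨-, b⟩ <;> rcases hx u' with ⟨-, b'⟩ | ⟨-, b'⟩ <;>
        rw [b, b'] at k1 <;> grind
    rw [k3, mul_add, mul_one, map_add] at k2
    exact hx1 u (left_eq_add.1 k2)

theorem g2_comp {K A I : Type} [Field K] [Zero A] (l : K → A) (l0 : l 0 = 0)
    (h : G2 fun x y : K => l (x * y)) {m : ℕ} {v : I → Fin m → K} (hv : Reps v)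
    {π : (Fin m → K) → I → I} (hπ : Good v v π) : G2 fun x y : Fin m → K => l (x ⬝ᵥ y) := by
  classical
  obtain ⟨σ, s1, s2, s3⟩ := h
  obtain ⟨p1, p2, p3⟩ := hπ
  choose ρ s hρ using hv.surj
  let a : (Fin m → K) → I → K → K := fun P r c => σ (v (π P r) ⬝ᵥ P) (c * (v (π P r) ⬝ᵥ v r))
  let τ : (Fin m → K) → (Fin m → K) → Fin m → K := fun P d =>
    if h : d = 0 then 0 else a P (ρ d h) (s d h) • v (π P (ρ d h))
  have hτ : ∀ d, d ≠ 0 → ∃ r c, c ≠ 0 ∧ d = c • v r ∧ ∀ P, τ P d = a P r c • v (π P r) :=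
    fun d hd => ⟨ρ d hd, s d hd, fun k => hd (by rw [hρ d hd, k, zero_smul]), hρ d hd,
      fun P => dif_neg hd⟩
  have ha : ∀ P r c, c ≠ 0 → a P r c ≠ 0 := by
    intro P r c hc k
    refine s2 (v (π P r) ⬝ᵥ P) _ (mul_ne_zero hc (p2 P r)) ?_
    change l (a P r c * _) = 0
    rw [k, zero_mul, l0]
  have hs : ∀ (c c' : K) i j, c ≠ 0 → c • v i = c' • v j → i = j ∧ c = c' := by
    intro c c' i j hc k
    obtain rfl : i = j := hv.inj i j (c⁻¹ * c') (by
      rw [mul_smul, ← k, smul_smul, inv_mul_cancel₀ hc, one_smul])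
    exact ⟨rfl, smul_left_injective K (hv.ne i) k⟩
  refine ⟨τ, fun P d d' hd hd' k => ?_, fun P d hd => ?_, fun d P Q hd k k' => ?_⟩
  · obtain ⟨r, c, hc, rfl, e⟩ := hτ d hd
    obtain ⟨r', c', hc', rfl, e'⟩ := hτ d' hd'
    rw [e, e'] at k
    obtain ⟨k1, k2⟩ := hs _ _ _ _ (ha P r c hc) k
    obtain rfl := p1 P k1
    rw [mul_right_cancel₀ (p2 P r)
      (s1 _ _ _ (mul_ne_zero hc (p2 P r)) (mul_ne_zero hc' (p2 P r)) k2)]
  · obtain ⟨r, c, hc, rfl, e⟩ := hτ d hd
    simp only [e, smul_dotProduct, dotProduct_smul, smul_eq_mul]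
    rw [mul_left_comm]
    exact s2 (v (π P r) ⬝ᵥ P) _ (mul_ne_zero hc (p2 P r))
  · obtain ⟨r, c, hc, rfl, e⟩ := hτ d hd
    simp only [e, smul_dotProduct, smul_eq_mul] at k k'
    obtain ⟨k1, k2⟩ := hs _ _ _ _ (ha P r c hc) k
    refine p3 r P Q k1 (s3 _ _ _ (mul_ne_zero hc (p2 P r)) ?_ k')
    simp only [a] at k2
    rw [← k1] at k2
    exact k2

/-- The table for `q = 2`, `n = 4`. -/
def tab16 : Fin 16 → Fin 16 → Fin 16 :=
  ![![0, 15, 11, 13, 4, 12, 3, 9, 8, 14, 2, 6, 10, 1, 5, 7],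
    ![0, 7, 6, 2, 12, 9, 13, 1, 14, 10, 3, 11, 5, 15, 4, 8],
    ![0, 15, 3, 5, 14, 1, 2, 7, 13, 12, 6, 8, 11, 10, 9, 4],
    ![0, 5, 10, 6, 7, 1, 12, 2, 13, 3, 9, 11, 8, 4, 15, 14],
    ![0, 11, 14, 13, 4, 3, 2, 15, 10, 12, 9, 1, 6, 8, 5, 7],
    ![0, 13, 10, 9, 12, 11, 3, 15, 14, 8, 7, 1, 5, 6, 2, 4],
    ![0, 11, 7, 10, 13, 14, 12, 4, 15, 1, 8, 5, 9, 6, 3, 2],
    ![0, 9, 7, 6, 15, 4, 13, 12, 10, 5, 3, 2, 11, 1, 8, 14],
    ![0, 13, 11, 1, 6, 14, 5, 10, 9, 7, 12, 15, 4, 8, 3, 2],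
    ![0, 3, 15, 9, 7, 12, 5, 4, 11, 14, 6, 2, 10, 13, 8, 1],
    ![0, 5, 14, 10, 6, 4, 11, 1, 12, 7, 8, 15, 9, 3, 2, 13],
    ![0, 7, 6, 1, 14, 9, 4, 10, 11, 5, 2, 12, 8, 3, 15, 13],
    ![0, 3, 2, 5, 13, 6, 11, 9, 12, 10, 7, 8, 4, 15, 14, 1],
    ![0, 1, 15, 14, 5, 3, 10, 2, 9, 8, 12, 6, 7, 13, 4, 11],
    ![0, 1, 2, 14, 5, 11, 4, 7, 15, 3, 13, 12, 6, 10, 9, 8],
    ![0, 9, 3, 2, 15, 6, 10, 12, 8, 1, 13, 5, 7, 4, 14, 11]]

/-- Binary digits. -/
def bits (i : Fin 16) : Fin 4 → ZMod 2 := fun j => if i.val.testBit j.val then 1 else 0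

theorem bits_inj : ∀ i j, bits i = bits j → i = j := by decide +kernel

theorem g2_four : G2 fun x y : Fin 4 → ZMod 2 => x ⬝ᵥ y := by
  have h : G2 fun i j : Fin 16 => bits i ⬝ᵥ bits j :=
    ⟨tab16, by decide +kernel, by decide +kernel, by decide +kernel⟩
  have hb : Bijective bits := (Fintype.bijective_iff_injective_and_card _).2 ⟨bits_inj, by simp⟩
  have h0 : bits 0 = 0 := by decide +kernel
  refine h.transport bits (surjInv hb.2) id bits_inj (injective_surjInv _)
    (bits_inj _ _ ((surjInv_eq _ _).trans h0.symm)) injective_id rfl fun x y => ?_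
  rw [surjInv_eq hb.2]
  rfl

theorem g2_red (k m : ℕ) (hk : (Odd k ∧ 2 < k) ∨ k = 4) :
    G2 fun x y : Fin (m * k) → ZMod 2 => x ⬝ᵥ y := by
  have k0 : k ≠ 0 := by omega
  let K := GaloisField 2 k
  let l := Algebra.trace (ZMod 2) K
  have hr : Module.finrank (ZMod 2) K = k := GaloisField.finrank 2 k0
  obtain ⟨c, hc⟩ : ∃ c, l c ≠ 0 := by
    by_contra hcon
    push Not at hcon
    exact Algebra.trace_ne_zero (ZMod 2) K (LinearMap.ext hcon)
  have hK : G2 fun x y : K => l (x * y) := by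
    rcases hk with ⟨⟨j, hj⟩, -⟩ | rfl
    · refine g2_odd l.toAddMonoidHom ?_ fun x => ?_
      · have := Algebra.trace_algebraMap (R := ZMod 2) (S := K) 1
        rw [map_one, hr.trans hj] at this
        refine this.trans ?_
        rw [nsmul_eq_mul, mul_one]
        push_cast
        rw [show (2 : ZMod 2) = 0 from rfl, zero_mul, zero_add]
      · have := Algebra.trace_eq_of_algEquiv
          (FiniteField.frobeniusAlgEquivOfAlgebraic (ZMod 2) K) x
        rw [FiniteField.coe_frobeniusAlgEquivOfAlgebraic] at this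
        simpa [sq] using this
    · refine (coord (Module.finBasisOfFinrankEq _ _ hr) _ (fun x => ⟨fun y y' => ?_, fun a y => ?_⟩)
        fun x x' h => ?_).2 g2_four
      · rw [mul_add, map_add]
      · rw [mul_smul_comm, map_smul]
      · by_contra hne
        have h1 := sub_ne_zero.2 hne
        apply hc
        rw [← mul_div_cancel₀ c h1, sub_mul, map_sub]
        exact sub_eq_zero.2 (h _)
  have hcard : 2 < Nat.card K := by
    rw [GaloisField.card 2 k k0]
    calc 2 < 2 ^ 2 := by norm_num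
      _ ≤ 2 ^ k := Nat.pow_le_pow_right (by norm_num) (by omega)
  obtain ⟨π, hπ⟩ := exists_good (loc hcard) m (reps_proj m)
  have hr' : Module.finrank (ZMod 2) (Fin m → K) = m * k := by
    rw [Module.finrank_pi_fintype]
    simp [hr]
  refine (coord (Module.finBasisOfFinrankEq _ _ hr') _ (fun x => ⟨fun y y' => ?_, fun a y => ?_⟩)
    fun x x' h => ?_).1 (g2_comp l (map_zero l) hK (reps_proj m) hπ)
  · rw [dotProduct_add, map_add]
  · rw [dotProduct_smul, map_smul]
  · funext i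
    by_contra hne
    have h1 := sub_ne_zero.2 hne
    apply hc
    have := h (Pi.single i (c / (x i - x' i)))
    rw [dotProduct_single, dotProduct_single] at this
    rw [← mul_div_cancel₀ c h1, sub_mul, map_sub]
    exact sub_eq_zero.2 this

theorem g2_all (n : ℕ) (hn : 2 < n) : G2 fun x y : Fin n → ZMod 2 => x ⬝ᵥ y := by
  obtain ⟨k, m, hk, rfl⟩ : ∃ k m, ((Odd k ∧ 2 < k) ∨ k = 4) ∧ n = m * k := by
    by_cases h1 : n % 2 = 1
    · exact ⟨n, 1, Or.inl ⟨Nat.odd_iff.2 h1, hn⟩, by omega⟩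
    by_cases h2 : n % 4 = 0
    · exact ⟨4, n / 4, Or.inr rfl, by omega⟩
    · exact ⟨n / 2, 2, Or.inl ⟨Nat.odd_iff.2 (by omega), by omega⟩, by omega⟩
  exact g2_red k m hk

theorem exists_good_two {F : Type} [Field F] [Finite F] (hF : Nat.card F = 2) (n : ℕ) (hn : 2 < n)
    {I : Type} {v : I → Fin n → F} (hv : Reps v) : ∃ π, Good v v π := by
  have := Fintype.ofFinite F
  let e : ZMod 2 ≃+* F := ZMod.ringEquivOfPrime F Nat.prime_two (by rw [← Nat.card_eq_fintype_card, hF])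
  have h : G2 fun x y : Fin n → F => x ⬝ᵥ y := by
    refine (g2_all n hn).transport (fun x i => e (x i)) (fun y i => e.symm (y i)) e
      (fun x x' h => funext fun i => e.injective (congrFun h i))
      (fun x x' h => funext fun i => e.symm.injective (congrFun h i))
      (funext fun i => map_zero _) e.injective (map_zero _) fun x y => ?_
    simp [dotProduct, map_sum]
  obtain ⟨π, h1, h2, h3⟩ := h
  have h0 : ∀ P d, d ≠ 0 → π P d ≠ 0 := fun P d hd k => h2 P d hd (by simp [k])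
  have good : Good (fun w : {w : Fin n → F // w ≠ 0} => w.1) (fun w : {w : Fin n → F // w ≠ 0} => w.1)
      fun P d => ⟨π P d.1, h0 P d.1 d.2⟩ :=
    ⟨fun P d d' k => Subtype.ext (h1 P _ _ d.2 d'.2 (congrArg Subtype.val k)),
      fun P d => h2 P _ d.2, fun d P Q k k' => h3 _ P Q d.2 (congrArg Subtype.val k) k'⟩
  refine good.transfer hv (fun w hw => ⟨⟨w, hw⟩, 1, (one_smul _ _).symm⟩) (fun i => i.2)
    fun i j c k => Subtype.ext ?_
  obtain ⟨z, rfl⟩ := e.surjective c
  have : ∀ z : ZMod 2, z = 0 ∨ z = 1 := by decide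
  rcases this z with rfl | rfl
  · rw [map_zero, zero_smul] at k
    exact (i.2 k).elim
  · rwa [map_one, one_smul] at k

theorem main_all {F : Type} [Field F] [Finite F] (n : ℕ) (h : 2 < Nat.card F ^ (n - 1)) :
    ∃ A : Projectivization F (Fin n → F) → (Fin n → F) → Projectivization F (Fin n → F) × F,
      IsTripleArray A ∧ (∀ d, Set.range (fun P => A d P) = {s | s.1.rep ⬝ᵥ d.rep ≠ 0}) ∧
      ∀ P, Set.range (fun d => A d P) = {s | s.1.rep ⬝ᵥ P = s.2} := by
  by_cases hq : 2 < Nat.card F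
  · exact main hq n
  have h1 : 1 < Nat.card F := Finite.one_lt_card
  have h2 : Nat.card F = 2 := by omega
  have hn : 2 < n := by
    by_contra hn
    rw [h2] at h
    have : 2 ^ (n - 1) ≤ 2 ^ 1 := Nat.pow_le_pow_right (by norm_num) (by omega)
    omega
  obtain ⟨π, hπ⟩ := exists_good_two h2 n hn (reps_proj n)
  exact assemble (reps_proj n) hπ

end Pool.Agent.Work.MP_394e0d_co.H
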